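import Mathlib

set_option autoImplicit false

/-!
Mixing and circular mixing of graphs (Brewster-Noel).
-/

namespace Pool.Agent.Mixing

variable {V : Type}

/-- `f` is a `k`-colouring of `G`. -/
def IsCol (G : SimpleGraph V) (k : ℕ) (f : V → Fin k) : Prop :=
  ∀ u v, G.Adj u v → f u ≠ f v

/-- `f` is a `(k,q)`-colouring of `G`: the colours are `0, …, k-1`, and
`q ≤ |f u - f v| ≤ k - q` for all edges `uv`. -/
def IsCircCol (G : SimpleGraph V) (k q : ℕ) (f : V → Fin k) : Prop :=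
  ∀ u v, G.Adj u v → (q : ℤ) ≤ |((f u : ℕ) : ℤ) - ((f v : ℕ) : ℤ)| ∧
    |((f u : ℕ) : ℤ) - ((f v : ℕ) : ℤ)| ≤ (k : ℤ) - (q : ℤ)

/-- `f` and `g` are joined by a finite sequence of colourings satisfying `P` in which consecutive
members differ at exactly one vertex. -/
def Linked {k : ℕ} (P : (V → Fin k) → Prop) (f g : V → Fin k) : Prop :=
  Relation.ReflTransGen (fun a b => P a ∧ P b ∧ ∃! v, a v ≠ b v) f g

/-- `G` is `k`-mixing. -/
def KMixing (G : SimpleGraph V) (k : ℕ) : Prop :=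
  ∀ f g, IsCol G k f → IsCol G k g → Linked (IsCol G k) f g

/-- `G` is `(k,q)`-mixing. -/
def KQMixing (G : SimpleGraph V) (k q : ℕ) : Prop :=
  ∀ f g, IsCircCol G k q f → IsCircCol G k q g → Linked (IsCircCol G k q) f g

/-- The mixing threshold: the least `ℓ` such that `G` is `k`-mixing for all `k ≥ ℓ`. -/
noncomputable def mixThreshold (G : SimpleGraph V) : ℕ :=
  sInf {ℓ : ℕ | ∀ k : ℕ, 1 ≤ k → ℓ ≤ k → KMixing G k}

/-- The circular mixing threshold: the infimum of all rationals `ℓ` such that `G` is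
`(k,q)`-mixing for all positive integers `k, q` with `k / q ≥ ℓ`. -/
noncomputable def circThreshold (G : SimpleGraph V) : ℝ :=
  sInf {x : ℝ | ∃ ℓ : ℚ, x = (ℓ : ℝ) ∧
    ∀ k q : ℕ, 1 ≤ k → 1 ≤ q → ℓ ≤ (k : ℚ) / (q : ℚ) → KQMixing G k q}

end Pool.Agent.Mixing
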