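import Pool.Agent.Lib_helper71.Mixing.Stage

set_option autoImplicit false

/-!
The graph and its two thresholds.
-/

namespace Pool.Agent.Mixing

open Function

/-- the vertices: `some (false, i)` is `a i`, `some (true, i)` is `b i`, `none` is `w` -/
abbrev Vx : Type := Option (Bool × Fin 4)

/-- adjacency -/
def adjRel : Vx → Vx → Prop
  | some (false, i), some (true, j) => i ≠ j
  | some (true, j), some (false, i) => i ≠ j
  | none, some (false, i) => i = 0
  | some (false, i), none => i = 0
  | none, some (true, j) => j = 1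
  | some (true, j), none => j = 1
  | _, _ => False

/-- the cube with one more vertex joined to the two ends of an edge -/
def cubeW : SimpleGraph Vx where
  Adj := adjRel
  symm := ⟨by
    intro u v h
    rcases u with _ | ⟨_ | _, i⟩ <;> rcases v with _ | ⟨_ | _, j⟩ <;>
      simp only [adjRel] at h ⊢ <;> exact h⟩
  loopless := ⟨by
    intro u h
    rcases u with _ | ⟨_ | _, i⟩ <;> simp only [adjRel] at h⟩

/-- the colour of a vertex in a state -/
def val (s : St) : Vx → ℤ
  | none => s.2.2
  | some (false, i) => s.1 i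
  | some (true, i) => s.2.1 i

lemma far_nat_iff {k q : ℕ} (hq : 1 ≤ q) {u v : ℤ} (hu : 0 ≤ u) (hu' : u < k) (hv : 0 ≤ v)
    (hv' : v < k) : Far k q u v ↔ ((q : ℤ) ≤ |u - v| ∧ |u - v| ≤ (k : ℤ) - (q : ℤ)) := by
  have hq' : (1 : ℤ) ≤ q := by exact_mod_cast hq
  constructor
  · rintro ⟨m, h1, h2⟩
    have h3 : m = 0 ∨ m = 1 := by
      have : -1 < m := by
        by_contra hc
        push Not at hc
        nlinarith
      have : m < 2 := by
        by_contra hc
        push Not at hc
        nlinarith
      omega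
    rcases h3 with rfl | rfl
    · rw [abs_of_nonneg (by linarith)]
      constructor <;> linarith
    · rw [abs_of_nonpos (by linarith)]
      constructor <;> linarith
  · rintro ⟨h1, h2⟩
    rcases le_total v u with h | h
    · rw [abs_of_nonneg (by linarith)] at h1 h2
      exact ⟨0, by linarith, by linarith⟩
    · rw [abs_of_nonpos (by linarith)] at h1 h2
      exact ⟨1, by linarith, by linarith⟩

lemma far_emod {k q a b : ℤ} (h : Far k q a b) : Far k q (a % k) (b % k) := by
  have h1 := far_add_left (-(a / k)) h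
  have h2 := far_add_right (-(b / k)) h1
  have ea : a + k * -(a / k) = a % k := by
    have := Int.emod_add_mul_ediv a k; linarith
  have eb : b + k * -(b / k) = b % k := by
    have := Int.emod_add_mul_ediv b k; linarith
  rwa [ea, eb] at h2

/-- the colouring of a state -/
def toCol (k : ℕ) (hk : 0 < k) (s : St) : Vx → Fin k := fun v =>
  ⟨(val s v % k).toNat, by
    have h1 : 0 ≤ val s v % k := Int.emod_nonneg _ (by exact_mod_cast hk.ne')
    have h2 : val s v % k < k := Int.emod_lt_of_pos _ (by exact_mod_cast hk)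
    omega⟩

lemma toCol_val (k : ℕ) (hk : 0 < k) (s : St) (v : Vx) :
    (((toCol k hk s v : Fin k) : ℕ) : ℤ) = val s v % k := by
  have h1 : 0 ≤ val s v % k := Int.emod_nonneg _ (by exact_mod_cast hk.ne')
  simp only [toCol]
  omega

lemma toCol_isCircCol {k q : ℕ} (hq : 1 ≤ q) (hk : 0 < k) {s : St}
    (hs : GG k q s.1 s.2.1 s.2.2) : IsCircCol cubeW k q (toCol k hk s) := by
  have key : ∀ u v : Vx, Far k q (val s u) (val s v) →
      ((q : ℤ) ≤ |((toCol k hk s u : ℕ) : ℤ) - ((toCol k hk s v : ℕ) : ℤ)| ∧
        |((toCol k hk s u : ℕ) : ℤ) - ((toCol k hk s v : ℕ) : ℤ)| ≤ (k : ℤ) - (q : ℤ)) := by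
    intro u v h
    rw [toCol_val, toCol_val]
    have hk' : (0 : ℤ) < k := by exact_mod_cast hk
    exact (far_nat_iff hq (Int.emod_nonneg _ hk'.ne') (Int.emod_lt_of_pos _ hk')
      (Int.emod_nonneg _ hk'.ne') (Int.emod_lt_of_pos _ hk')).mp (far_emod h)
  intro u v h
  apply key
  obtain ⟨h1, h2, h3⟩ := hs
  rcases u with _ | ⟨_ | _, i⟩ <;> rcases v with _ | ⟨_ | _, j⟩ <;>
    simp only [cubeW, adjRel] at h
  · subst h; exact h2
  · subst h; exact h3
  · subst h; exact h2.symm
  · exact h1 i j h
  · subst h; exact h3.symm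
  · exact (h1 j i h).symm

/-- the state of a colouring -/
def ofCol {k : ℕ} (f : Vx → Fin k) : St :=
  (fun i => ((f (some (false, i)) : ℕ) : ℤ), fun i => ((f (some (true, i)) : ℕ) : ℤ),
    ((f none : ℕ) : ℤ))

lemma ofCol_GG {k q : ℕ} (hq : 1 ≤ q) {f : Vx → Fin k} (hf : IsCircCol cubeW k q f) :
    GG k q (ofCol f).1 (ofCol f).2.1 (ofCol f).2.2 := by
  have key : ∀ u v : Vx, cubeW.Adj u v → Far k q ((f u : ℕ) : ℤ) ((f v : ℕ) : ℤ) := by
    intro u v h
    have h1 := (f u).2
    have h2 := (f v).2
    exact (far_nat_iff hq (by omega) (by omega) (by omega) (by omega)).mpr (hf u v h)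
  refine ⟨fun i j hij => key _ _ ?_, key _ _ ?_, key _ _ ?_⟩
  · exact hij
  · exact rfl
  · exact rfl

lemma toCol_ofCol {k : ℕ} (hk : 0 < k) (f : Vx → Fin k) : toCol k hk (ofCol f) = f := by
  funext v
  apply Fin.ext
  have h : (((toCol k hk (ofCol f) v : Fin k) : ℕ) : ℤ) = ((f v : ℕ) : ℤ) := by
    rw [toCol_val]
    have e : val (ofCol f) v = ((f v : ℕ) : ℤ) := by
      rcases v with _ | ⟨_ | _, i⟩ <;> rfl
    rw [e]
    have h1 := (f v).2
    exact Int.emod_eq_of_lt (by omega) (by omega)
  exact_mod_cast h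

lemma linked_of_update {k q : ℕ} (hk : 0 < k) {s t : St}
    (hs : IsCircCol cubeW k q (toCol k hk s)) (ht : IsCircCol cubeW k q (toCol k hk t)) (v : Vx)
    (h : ∀ u, u ≠ v → val t u = val s u) :
    Linked (IsCircCol cubeW k q) (toCol k hk s) (toCol k hk t) := by
  by_cases he : toCol k hk s v = toCol k hk t v
  · have : toCol k hk s = toCol k hk t := by
      funext u
      by_cases hu : u = v
      · subst hu; exact he
      · simp only [toCol, h u hu]
    rw [this]
    exact Relation.ReflTransGen.refl
  · refine Relation.ReflTransGen.single ⟨hs, ht, v, he, ?_⟩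
    intro u hu
    by_contra huv
    apply hu
    simp only [toCol, h u huv]

lemma linked_of_stp {k q : ℕ} (hq : 1 ≤ q) (hk : 0 < k) {s t : St} (h : Stp k q s t) :
    Linked (IsCircCol cubeW k q) (toCol k hk s) (toCol k hk t) := by
  obtain ⟨h1, h2, h3⟩ := h
  have hs := toCol_isCircCol hq hk h1
  have ht := toCol_isCircCol hq hk h2
  rcases h3 with ⟨i, c, rfl⟩ | ⟨i, c, rfl⟩ | ⟨c, rfl⟩
  · apply linked_of_update hk hs ht (some (false, i))
    intro u hu
    rcases u with _ | ⟨_ | _, j⟩
    · rfl
    · simp only [val]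
      have : j ≠ i := fun h => hu (by rw [h])
      exact update_of_ne this _ _
    · rfl
  · apply linked_of_update hk hs ht (some (true, i))
    intro u hu
    rcases u with _ | ⟨_ | _, j⟩
    · rfl
    · rfl
    · simp only [val]
      have : j ≠ i := fun h => hu (by rw [h])
      exact update_of_ne this _ _
  · apply linked_of_update hk hs ht none
    intro u hu
    rcases u with _ | ⟨_ | _, j⟩
    · exact absurd rfl hu
    · rfl
    · rfl

lemma linked_of_rch {k q : ℕ} (hq : 1 ≤ q) (hk : 0 < k) {s t : St} (h : Rch k q s t) :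
    Linked (IsCircCol cubeW k q) (toCol k hk s) (toCol k hk t) := by
  induction h with
  | refl => exact Relation.ReflTransGen.refl
  | tail _ h ih => exact ih.trans (linked_of_stp hq hk h)

lemma Linked.symm {V : Type} {k : ℕ} {P : (V → Fin k) → Prop} {f g : V → Fin k}
    (h : Linked P f g) : Linked P g f := by
  induction h with
  | refl => exact Relation.ReflTransGen.refl
  | tail _ hs ih =>
    obtain ⟨h1, h2, v, h3, h4⟩ := hs
    exact Relation.ReflTransGen.head
      ⟨h2, h1, v, fun h => h3 h.symm, fun u hu => h4 u fun h => hu h.symm⟩ ih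

/-- the graph is `(k,q)`-mixing for `k > 4 q` -/
theorem kq_mixing {k q : ℕ} (hq : 1 ≤ q) (hkq : 4 * q < k) : KQMixing cubeW k q := by
  intro f g hf hg
  have hk : 0 < k := by omega
  have h1 := to_base (k := k) (q := q) (by exact_mod_cast hq) (by exact_mod_cast hkq) _
    (ofCol_GG hq hf)
  have h2 := to_base (k := k) (q := q) (by exact_mod_cast hq) (by exact_mod_cast hkq) _
    (ofCol_GG hq hg)
  have h3 := linked_of_rch hq hk h1
  have h4 := linked_of_rch hq hk h2
  rw [toCol_ofCol] at h3 h4
  exact h3.trans h4.symm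

lemma isCol_iff {V : Type} (G : SimpleGraph V) (k : ℕ) (f : V → Fin k) :
    IsCol G k f ↔ IsCircCol G k 1 f := by
  constructor
  · intro h u v huv
    have h1 := h u v huv
    have h2 : ((f u : ℕ) : ℤ) - ((f v : ℕ) : ℤ) ≠ 0 := by
      intro h3
      exact h1 (Fin.ext (by omega))
    have h3 := (f u).2
    have h4 := (f v).2
    refine ⟨by exact_mod_cast Int.one_le_abs h2, ?_⟩
    rw [abs_le]
    constructor <;> push_cast <;> omega
  · intro h u v huv he
    have h1 := (h u v huv).1
    rw [he, sub_self, abs_zero] at h1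
    norm_num at h1

lemma kMixing_iff {V : Type} (G : SimpleGraph V) (k : ℕ) : KMixing G k ↔ KQMixing G k 1 := by
  have : IsCol G k = IsCircCol G k 1 := by
    funext f; exact propext (isCol_iff G k f)
  unfold KMixing KQMixing
  rw [this]

/-- the graph is not `4`-mixing -/
theorem not_four_mixing : ¬ KMixing cubeW 4 := by
  intro hmix
  let f0 : Vx → Fin 4 := fun v => match v with
    | none => 2
    | some (_, i) => i
  let f1 : Vx → Fin 4 := fun v => match v with
    | none => 2
    | some (false, _) => 0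
    | some (true, _) => 1
  have hf0 : IsCol cubeW 4 f0 := by
    intro u v h
    rcases u with _ | ⟨_ | _, i⟩ <;> rcases v with _ | ⟨_ | _, j⟩ <;>
      simp only [cubeW, adjRel] at h
    · subst h; decide
    · subst h; decide
    · subst h; decide
    · exact h
    · subst h; decide
    · exact fun h' => h h'.symm
  have hf1 : IsCol cubeW 4 f1 := by
    intro u v h
    rcases u with _ | ⟨_ | _, i⟩ <;> rcases v with _ | ⟨_ | _, j⟩ <;>
      simp only [cubeW, adjRel] at h
    all_goals (simp only [f1]; decide)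
  have hl := hmix f0 f1 hf0 hf1
  have hinv : ∀ g : Vx → Fin 4, Linked (IsCol cubeW 4) f0 g →
      ∀ i, g (some (false, i)) = i ∧ g (some (true, i)) = i := by
    intro g hg
    induction hg with
    | refl => intro i; exact ⟨rfl, rfl⟩
    | @tail b c _ hstep ih =>
      obtain ⟨_, hb, v, hv, huni⟩ := hstep
      have heq : ∀ u, u ≠ v → b u = c u := fun u hu => by
        by_contra hc; exact hu (huni u hc)
      intro i
      constructor
      · by_cases h : some (false, i) = v
        · by_contra hc
          have h1 := heq (some (true, c (some (false, i)))) (by rw [← h]; simp)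
          rw [(ih _).2] at h1
          exact hb _ _ (show cubeW.Adj (some (false, i)) (some (true, c (some (false, i)))) from
            Ne.symm hc) h1
        · rw [← heq _ h]; exact (ih i).1
      · by_cases h : some (true, i) = v
        · by_contra hc
          have h1 := heq (some (false, c (some (true, i)))) (by rw [← h]; simp)
          rw [(ih _).1] at h1
          exact hb _ _ (show cubeW.Adj (some (true, i)) (some (false, c (some (true, i)))) from
            hc) h1
        · rw [← heq _ h]; exact (ih i).2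
  have := (hinv f1 hl 1).1
  exact absurd this (by decide)

theorem mixThreshold_cubeW : mixThreshold cubeW = 5 := by
  apply le_antisymm
  · apply Nat.sInf_le
    intro k _ hk
    rw [kMixing_iff]
    exact kq_mixing le_rfl (by omega)
  · apply le_csInf
    · exact ⟨5, fun k _ hk => by rw [kMixing_iff]; exact kq_mixing le_rfl (by omega)⟩
    · intro ℓ hℓ
      by_contra hc
      push Not at hc
      exact not_four_mixing (hℓ 4 (by norm_num) (by omega))

theorem circThreshold_cubeW : circThreshold cubeW = 4 := by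
  have hset : {x : ℝ | ∃ ℓ : ℚ, x = (ℓ : ℝ) ∧
      ∀ k q : ℕ, 1 ≤ k → 1 ≤ q → ℓ ≤ (k : ℚ) / (q : ℚ) → KQMixing cubeW k q} =
      {x : ℝ | ∃ ℓ : ℚ, x = (ℓ : ℝ) ∧ 4 < ℓ} := by
    ext x
    constructor
    · rintro ⟨ℓ, hx, hℓ⟩
      refine ⟨ℓ, hx, ?_⟩
      by_contra hc
      push Not at hc
      have := hℓ 4 1 (by norm_num) le_rfl (by simpa using hc)
      rw [← kMixing_iff] at this
      exact not_four_mixing this
    · rintro ⟨ℓ, hx, hℓ⟩
      refine ⟨ℓ, hx, fun k q hk hq hkq => kq_mixing hq ?_⟩
      have hq' : (0 : ℚ) < q := by exact_mod_cast hq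
      have h1 : (4 : ℚ) < (k : ℚ) / q := lt_of_lt_of_le hℓ hkq
      rw [lt_div_iff₀ hq'] at h1
      exact_mod_cast h1
  unfold circThreshold
  rw [hset]
  apply le_antisymm
  · apply le_of_forall_gt_imp_ge_of_dense
    intro y hy
    obtain ⟨ℓ, h1, h2⟩ := exists_rat_btwn hy
    have h3 : sInf {x : ℝ | ∃ ℓ : ℚ, x = (ℓ : ℝ) ∧ 4 < ℓ} ≤ (ℓ : ℝ) := by
      apply csInf_le
      · refine ⟨4, ?_⟩
        rintro x ⟨m, rfl, hm⟩
        have : ((4 : ℚ) : ℝ) < (m : ℝ) := by exact_mod_cast hm
        push_cast at this
        exact this.le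
      · refine ⟨ℓ, rfl, ?_⟩
        have : ((4 : ℚ) : ℝ) < (ℓ : ℝ) := by push_cast; exact h1
        exact_mod_cast this
    linarith
  · apply le_csInf
    · exact ⟨((5 : ℚ) : ℝ), 5, rfl, by norm_num⟩
    · rintro x ⟨m, rfl, hm⟩
      have : ((4 : ℚ) : ℝ) < (m : ℝ) := by exact_mod_cast hm
      push_cast at this
      exact this.le

theorem cubeW_not_colorable : ¬ cubeW.Colorable 2 := by
  rintro ⟨c⟩
  have h1 : c none ≠ c (some (false, 0)) := c.valid (show cubeW.Adj _ _ from rfl)
  have h2 : c none ≠ c (some (true, 1)) := c.valid (show cubeW.Adj _ _ from rfl)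
  have h3 : c (some (false, 0)) ≠ c (some (true, 1)) :=
    c.valid (show cubeW.Adj (some (false, 0)) (some (true, 1)) from by
      show (0 : Fin 4) ≠ 1; decide)
  have e : ∀ a b c : Fin 2, a ≠ b → a ≠ c → b ≠ c → False := by decide
  exact e _ _ _ h1 h2 h3

theorem cubeW_connected : cubeW.Connected := by
  have ha0 : cubeW.Reachable none (some (false, 0)) :=
    SimpleGraph.Adj.reachable (show cubeW.Adj _ _ from rfl)
  have hb1 : cubeW.Reachable none (some (true, 1)) :=
    SimpleGraph.Adj.reachable (show cubeW.Adj _ _ from rfl)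
  have hab : ∀ i j : Fin 4, i ≠ j → cubeW.Reachable (some (false, i)) (some (true, j)) :=
    fun i j h => SimpleGraph.Adj.reachable (show cubeW.Adj _ _ from h)
  have hb : ∀ j : Fin 4, j ≠ 0 → cubeW.Reachable none (some (true, j)) :=
    fun j hj => ha0.trans (hab 0 j (Ne.symm hj))
  have ha : ∀ i : Fin 4, i ≠ 1 → cubeW.Reachable none (some (false, i)) :=
    fun i hi => hb1.trans (hab i 1 hi).symm
  have hall : ∀ v, cubeW.Reachable none v := by
    intro v
    rcases v with _ | ⟨_ | _, i⟩
    · exact SimpleGraph.Reachable.refl _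
    · by_cases hi : i = 1
      · subst hi; exact (hb 2 (by decide)).trans (hab 1 2 (by decide)).symm
      · exact ha i hi
    · by_cases hi : i = 0
      · subst hi; exact (ha 2 (by decide)).trans (hab 2 0 (by decide))
      · exact hb i hi
  exact { preconnected := fun u v => (hall u).symm.trans (hall v), nonempty := ⟨none⟩ }

end Pool.Agent.Mixing
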