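import Pool.Agent.Lib_helper71.Mixing.States

set_option autoImplicit false

/-!
Every colouring can be moved to the base colouring when `k > 4 q`.
-/

namespace Pool.Agent.Mixing

open Function

variable {k q : ℤ}

/-- clusters in cyclic order `p0, p1, p2, p3` -/
structure SS (k q : ℤ) (x y : Fin 4 → ℤ) (p0 p1 p2 p3 : Fin 4) : Prop where
  c1 : q ≤ y p1 - x p0
  c2 : q ≤ x p2 - y p1
  c3 : q ≤ y p3 - x p2
  c4 : q ≤ x p0 + k - y p3
  d1 : q ≤ x p1 - y p0
  d2 : q ≤ y p2 - x p1
  d3 : q ≤ x p3 - y p2
  d4 : q ≤ y p0 + k - x p3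
  e0 : x p0 - y p0 ≤ q
  e0' : y p0 - x p0 ≤ q
  e1 : x p1 - y p1 ≤ q
  e1' : y p1 - x p1 ≤ q
  e2 : x p2 - y p2 ≤ q
  e2' : y p2 - x p2 ≤ q
  e3 : x p3 - y p3 ≤ q
  e3' : y p3 - x p3 ≤ q

lemma SS.hg (hq : 0 < q) {x y : Fin 4 → ℤ} {p0 p1 p2 p3 : Fin 4} (h : SS k q x y p0 p1 p2 p3)
    (hcov : ∀ i, i = p0 ∨ i = p1 ∨ i = p2 ∨ i = p3) : HG k q x y := by
  obtain ⟨c1, c2, c3, c4, d1, d2, d3, d4, e0, e0', e1, e1', e2, e2', e3, e3'⟩ := h
  intro i j hij
  rcases hcov i with rfl | rfl | rfl | rfl <;> rcases hcov j with rfl | rfl | rfl | rfl <;>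
    first
    | exact absurd rfl hij
    | exact ⟨0, by omega, by omega⟩
    | exact ⟨1, by omega, by omega⟩

/-- in cyclic position, a cluster can be broken up -/
lemma stage1 (hq : 0 < q) (hk : 4 * q < k) {p0 p1 p2 p3 : Fin 4} (h01 : p0 ≠ p1) (h02 : p0 ≠ p2)
    (h03 : p0 ≠ p3) (h12 : p1 ≠ p2) (h13 : p1 ≠ p3) (h23 : p2 ≠ p3)
    (hcov : ∀ i, i = p0 ∨ i = p1 ∨ i = p2 ∨ i = p3) : ∀ (N : ℕ) (x y : Fin 4 → ℤ),
    SS k q x y p0 p1 p2 p3 →
    (y p0 + x p1 + y p2 + x p3 + 4 * q) - (x p0 + y p1 + x p2 + y p3) ≤ N →
    ∃ x' y', HR k q x y x' y' ∧ HG k q x' y' ∧ ∃ j, Far k q (x' j) (y' j) := by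
  intro N
  induction N with
  | zero =>
    intro x y h hN
    refine ⟨x, y, HR.refl x y, h.hg hq hcov, p0, ?_⟩
    obtain ⟨c1, c2, c3, c4, d1, d2, d3, d4, e0, e0', e1, e1', e2, e2', e3, e3'⟩ := h
    push_cast at hN
    exact ⟨0, by omega, by omega⟩
  | succ N ih =>
    intro x y h hN
    have hg := h.hg hq hcov
    by_cases hfar : ∃ j, Far k q (x j) (y j)
    · exact ⟨x, y, HR.refl x y, hg, hfar⟩
    · push Not at hfar
      obtain ⟨c1, c2, c3, c4, d1, d2, d3, d4, e0, e0', e1, e1', e2, e2', e3, e3'⟩ := h
      have s0 : x p0 - y p0 < q := by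
        by_contra hc; exact hfar p0 ⟨0, by omega, by omega⟩
      have s0' : y p0 - x p0 < q := by
        by_contra hc; exact hfar p0 (Far.symm ⟨0, by omega, by omega⟩)
      have s1 : x p1 - y p1 < q := by
        by_contra hc; exact hfar p1 ⟨0, by omega, by omega⟩
      have s1' : y p1 - x p1 < q := by
        by_contra hc; exact hfar p1 (Far.symm ⟨0, by omega, by omega⟩)
      have s2 : x p2 - y p2 < q := by
        by_contra hc; exact hfar p2 ⟨0, by omega, by omega⟩
      have s2' : y p2 - x p2 < q := by
        by_contra hc; exact hfar p2 (Far.symm ⟨0, by omega, by omega⟩)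
      have s3 : x p3 - y p3 < q := by
        by_contra hc; exact hfar p3 ⟨0, by omega, by omega⟩
      have s3' : y p3 - x p3 < q := by
        by_contra hc; exact hfar p3 (Far.symm ⟨0, by omega, by omega⟩)
      push_cast at hN
      by_cases g1 : q < y p1 - x p0
      · have hss : SS k q (update x p0 (x p0 + 1)) y p0 p1 p2 p3 := by
          constructor <;>
          simp only [update_self, update_of_ne h01.symm, update_of_ne h02.symm,
            update_of_ne h03.symm] <;> omega
        have hr := move_x hq hk (x := x) (y := y) p0 (x p0 + 1) (by omega) (by omega)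
          (hss.hg hq hcov)
        obtain ⟨x', y', h1, h2, h3⟩ := ih _ _ hss (by
          simp only [update_self, update_of_ne h01.symm, update_of_ne h02.symm,
            update_of_ne h03.symm]; omega)
        exact ⟨x', y', hr.trans h1, h2, h3⟩
      by_cases g2 : q < x p2 - y p1
      · have hss : SS k q x (update y p1 (y p1 + 1)) p0 p1 p2 p3 := by
          constructor <;>
          simp only [update_self, update_of_ne h01, update_of_ne h12.symm,
            update_of_ne h13.symm] <;> omega
        have hr := move_y hq hk (x := x) (y := y) p1 (y p1 + 1) (by omega) (by omega)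
          (hss.hg hq hcov)
        obtain ⟨x', y', h1, h2, h3⟩ := ih _ _ hss (by
          simp only [update_self, update_of_ne h01, update_of_ne h12.symm,
            update_of_ne h13.symm]; omega)
        exact ⟨x', y', hr.trans h1, h2, h3⟩
      by_cases g3 : q < y p3 - x p2
      · have hss : SS k q (update x p2 (x p2 + 1)) y p0 p1 p2 p3 := by
          constructor <;>
          simp only [update_self, update_of_ne h02, update_of_ne h12,
            update_of_ne h23.symm] <;> omega
        have hr := move_x hq hk (x := x) (y := y) p2 (x p2 + 1) (by omega) (by omega)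
          (hss.hg hq hcov)
        obtain ⟨x', y', h1, h2, h3⟩ := ih _ _ hss (by
          simp only [update_self, update_of_ne h02, update_of_ne h12,
            update_of_ne h23.symm]; omega)
        exact ⟨x', y', hr.trans h1, h2, h3⟩
      · have hss : SS k q x (update y p3 (y p3 + 1)) p0 p1 p2 p3 := by
          constructor <;>
          simp only [update_self, update_of_ne h03, update_of_ne h13,
            update_of_ne h23] <;> omega
        have hr := move_y hq hk (x := x) (y := y) p3 (y p3 + 1) (by omega) (by omega)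
          (hss.hg hq hcov)
        obtain ⟨x', y', h1, h2, h3⟩ := ih _ _ hss (by
          simp only [update_self, update_of_ne h03, update_of_ne h13,
            update_of_ne h23]; omega)
        exact ⟨x', y', hr.trans h1, h2, h3⟩

/-- every colouring can be moved to one with a broken cluster -/
lemma stage1' (hq : 0 < q) (hk : 4 * q < k) (x y : Fin 4 → ℤ) (h : HG k q x y) :
    ∃ x' y', HR k q x y x' y' ∧ HG k q x' y' ∧ ∃ j, Far k q (x' j) (y' j) := by
  by_cases hfar : ∃ j, Far k q (x j) (y j)
  · exact ⟨x, y, HR.refl x y, h, hfar⟩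
  · push Not at hfar
    have hk0 : 0 < k := by linarith
    -- lifts of the `b j`
    have hy : ∀ j : Fin 4, ∃ m : ℤ, (j ≠ 0 → q ≤ y j + k * m - x 0 ∧ y j + k * m - x 0 ≤ k - q) ∧
        (j = 0 → -q < y j + k * m - x 0 ∧ y j + k * m - x 0 < q) := by
      intro j
      by_cases hj : j = 0
      · subst hj
        obtain ⟨m, h1, h2⟩ := exists_of_not_far hq (by linarith) (hfar 0)
        exact ⟨-m, by simp, fun _ => ⟨by linarith, by linarith⟩⟩
      · obtain ⟨m, h1, h2⟩ := (h 0 j (Ne.symm hj)).symm
        exact ⟨m, fun _ => ⟨by linarith, by linarith⟩, fun h => absurd h hj⟩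
    choose m' hm1 hm2 using hy
    have hx : ∀ j : Fin 4, ∃ m : ℤ, (j = 0 → m = 0) ∧
        -q < x j + k * m - (y j + k * m' j) ∧ x j + k * m - (y j + k * m' j) < q := by
      intro j
      by_cases hj : j = 0
      · subst hj
        obtain ⟨h1, h2⟩ := hm2 0 rfl
        exact ⟨0, fun _ => rfl, by linarith, by linarith⟩
      · obtain ⟨m, h1, h2⟩ := exists_of_not_far hq (by linarith) (hfar j)
        exact ⟨m + m' j, fun h => absurd h hj, by nlinarith, by nlinarith⟩
    choose m hm0 hm3 hm4 using hx
    obtain ⟨g, r⟩ := lift_all h m m'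
    set X : Fin 4 → ℤ := fun i => x i + k * m i with hX
    set Y : Fin 4 → ℤ := fun i => y i + k * m' i with hY
    have hX0 : X 0 = x 0 := by simp [hX, hm0 0 rfl]
    have a1 : q ≤ Y 1 - X 0 ∧ Y 1 - X 0 ≤ k - q := by rw [hX0]; exact hm1 1 (by decide)
    have a2 : q ≤ Y 2 - X 0 ∧ Y 2 - X 0 ≤ k - q := by rw [hX0]; exact hm1 2 (by decide)
    have a3 : q ≤ Y 3 - X 0 ∧ Y 3 - X 0 ≤ k - q := by rw [hX0]; exact hm1 3 (by decide)
    have b0 : -q < X 0 - Y 0 ∧ X 0 - Y 0 < q := ⟨hm3 0, hm4 0⟩
    have b1 : -q < X 1 - Y 1 ∧ X 1 - Y 1 < q := ⟨hm3 1, hm4 1⟩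
    have b2 : -q < X 2 - Y 2 ∧ X 2 - Y 2 < q := ⟨hm3 2, hm4 2⟩
    have b3 : -q < X 3 - Y 3 ∧ X 3 - Y 3 < q := ⟨hm3 3, hm4 3⟩
    -- consequences of `Far`
    have far2 : ∀ a b : ℤ, Far k q a b → -k < a - b → a - b < k →
        (q ≤ a - b ∧ a - b ≤ k - q) ∨ (a - b ≤ -q ∧ -(k - q) ≤ a - b) := by
      rintro a b ⟨n, h1, h2⟩ h3 h4
      have h5 : n = 0 ∨ n = 1 := by
        have : -1 < n := by
          by_contra hc
          push Not at hc
          nlinarith
        have : n < 2 := by
          by_contra hc
          push Not at hc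
          nlinarith
        omega
      rcases h5 with rfl | rfl
      · left; constructor <;> linarith
      · right; constructor <;> linarith
    have far3 : ∀ a b : ℤ, Far k q a b → -q < a - b → a - b < k + q →
        (q ≤ a - b ∧ a - b ≤ k - q) := by
      rintro a b ⟨n, h1, h2⟩ h3 h4
      have h5 : n = 0 := by
        have : -1 < n := by
          by_contra hc
          push Not at hc
          nlinarith
        have : n < 1 := by
          by_contra hc
          push Not at hc
          nlinarith
        omega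
      subst h5
      constructor <;> linarith
    have f10 := far3 _ _ (g 1 0 (by decide)) (by omega) (by omega)
    have f20 := far3 _ _ (g 2 0 (by decide)) (by omega) (by omega)
    have f30 := far3 _ _ (g 3 0 (by decide)) (by omega) (by omega)
    have f12 := far2 _ _ (g 1 2 (by decide)) (by omega) (by omega)
    have f21 := far2 _ _ (g 2 1 (by decide)) (by omega) (by omega)
    have f13 := far2 _ _ (g 1 3 (by decide)) (by omega) (by omega)
    have f31 := far2 _ _ (g 3 1 (by decide)) (by omega) (by omega)
    have f23 := far2 _ _ (g 2 3 (by decide)) (by omega) (by omega)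
    have f32 := far2 _ _ (g 3 2 (by decide)) (by omega) (by omega)
    have fin : ∀ p1 p2 p3 : Fin 4, (0 : Fin 4) ≠ p1 → (0 : Fin 4) ≠ p2 → (0 : Fin 4) ≠ p3 →
        p1 ≠ p2 → p1 ≠ p3 → p2 ≠ p3 → (∀ i, i = 0 ∨ i = p1 ∨ i = p2 ∨ i = p3) →
        SS k q X Y 0 p1 p2 p3 →
        ∃ x' y', HR k q x y x' y' ∧ HG k q x' y' ∧ ∃ j, Far k q (x' j) (y' j) := by
      intro p1 p2 p3 h1 h2 h3 h4 h5 h6 hcov hss
      obtain ⟨x', y', r1, r2, r3⟩ := stage1 hq hk h1 h2 h3 h4 h5 h6 hcov
        ((Y 0 + X p1 + Y p2 + X p3 + 4 * q) - (X 0 + Y p1 + X p2 + Y p3)).toNat X Y hss (by omega)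
      exact ⟨x', y', r.trans r1, r2, r3⟩
    rcases le_total (Y 1) (Y 2) with o12 | o12 <;> rcases le_total (Y 1) (Y 3) with o13 | o13 <;>
      rcases le_total (Y 2) (Y 3) with o23 | o23
    · exact fin 1 2 3 (by decide) (by decide) (by decide) (by decide) (by decide) (by decide)
        (by decide) (by constructor <;> omega)
    · exact fin 1 3 2 (by decide) (by decide) (by decide) (by decide) (by decide) (by decide)
        (by decide) (by constructor <;> omega)
    · exfalso; omega
    · exact fin 3 1 2 (by decide) (by decide) (by decide) (by decide) (by decide) (by decide)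
        (by decide) (by constructor <;> omega)
    · exact fin 2 1 3 (by decide) (by decide) (by decide) (by decide) (by decide) (by decide)
        (by decide) (by constructor <;> omega)
    · exfalso; omega
    · exact fin 2 3 1 (by decide) (by decide) (by decide) (by decide) (by decide) (by decide)
        (by decide) (by constructor <;> omega)
    · exact fin 3 2 1 (by decide) (by decide) (by decide) (by decide) (by decide) (by decide)
        (by decide) (by constructor <;> omega)

/-- constant colourings of the two sides -/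
def cst (X : ℤ) : Fin 4 → ℤ := fun _ => X

lemma hg_cst {X Y : ℤ} (h : Far k q X Y) : HG k q (cst X) (cst Y) := fun _ _ _ => h

/-- from a broken cluster to a colouring that is constant on both sides -/
lemma stage2 (hq : 0 < q) (hk : 4 * q < k) (x y : Fin 4 → ℤ) (h : HG k q x y) (j : Fin 4)
    (hj : Far k q (x j) (y j)) :
    ∃ X Y, Far k q X Y ∧ HR k q x y (cst X) (cst Y) := by
  have hall : ∀ i, Far k q (x j) (y i) := by
    intro i
    by_cases hi : j = i
    · subst hi; exact hj
    · exact h j i hi
  -- first move `a 1, a 2, a 3`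
  have m1 : HG k q (update x 1 (x j)) y := h.update_x 1 _ fun i _ => hall i
  have m2 : HG k q (update (update x 1 (x j)) 2 (x j)) y := m1.update_x 2 _ fun i _ => hall i
  have m3 : HG k q (update (update (update x 1 (x j)) 2 (x j)) 3 (x j)) y :=
    m2.update_x 3 _ fun i _ => hall i
  have r1 := (jump_x 1 (by decide) _ m1).trans ((jump_x 2 (by decide) _ m2).trans
    (jump_x 3 (by decide) _ m3))
  -- then `b 0, b 2, b 3` go to `b 1`
  have hy1 : Far k q (x 0) (y 1) := h 0 1 (by decide)
  have hx1 : Far k q (x j) (y 1) := hall 1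
  have hx' : ∀ i, Far k q (update (update (update x 1 (x j)) 2 (x j)) 3 (x j) i) (y 1) := by
    intro i
    fin_cases i
    · simpa [update] using hy1
    · simpa [update] using hx1
    · simpa [update] using hx1
    · simpa [update] using hx1
  have n1 := m3.update_y 0 (y 1) fun i _ => hx' i
  have n2 := n1.update_y 2 (y 1) fun i _ => hx' i
  have n3 := n2.update_y 3 (y 1) fun i _ => hx' i
  have r2 := (jump_y 0 (by decide) _ n1).trans ((jump_y 2 (by decide) _ n2).trans
    (jump_y 3 (by decide) _ n3))
  have ey : update (update (update y 0 (y 1)) 2 (y 1)) 3 (y 1) = cst (y 1) := by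
    funext i; fin_cases i <;> simp [update, cst]
  rw [ey] at r2 n3
  have r12 := r1.trans r2
  -- finally `a 0` walks to `x j`
  set Y := y 1
  have walk : ∀ (N : ℕ) (s s' : ℤ) (x : Fin 4 → ℤ), HG k q x (cst Y) → x 0 = Y + s → q ≤ s →
      s ≤ k - q → q ≤ s' → s' ≤ k - q → |s' - s| ≤ N →
      HR k q x (cst Y) (update x 0 (Y + s')) (cst Y) := by
    intro N
    induction N with
    | zero =>
      intro s s' x hg hx0 _ _ _ _ hN
      have : s' = s := by
        have := abs_nonneg (s' - s)
        push_cast at hN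
        have h0 : |s' - s| = 0 := le_antisymm hN this
        have := abs_eq_zero.mp h0
        omega
      subst this
      have : update x 0 (Y + s') = x := by rw [← hx0]; exact update_eq_self 0 x
      rw [this]
      exact HR.refl _ _
    | succ N ih =>
      intro s s' x hg hx0 h1 h2 h3 h4 hN
      by_cases hss : s' = s
      · subst hss
        have : update x 0 (Y + s') = x := by rw [← hx0]; exact update_eq_self 0 x
        rw [this]
        exact HR.refl _ _
      · have hex : ∃ t, q ≤ t ∧ t ≤ k - q ∧ t - s ≤ 1 ∧ s - t ≤ 1 ∧ |s' - t| ≤ N := by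
          push_cast at hN
          rcases lt_or_gt_of_ne hss with h | h
          · refine ⟨s - 1, by omega, by omega, by omega, by omega, ?_⟩
            rw [abs_of_nonpos (by omega)] at hN ⊢
            omega
          · refine ⟨s + 1, by omega, by omega, by omega, by omega, ?_⟩
            rw [abs_of_nonneg (by omega)] at hN ⊢
            omega
        obtain ⟨t, t1, t2, t3, t4, t5⟩ := hex
        have hg' : HG k q (update x 0 (Y + t)) (cst Y) :=
          hg.update_x 0 _ fun i _ => far_of_le (by simp only [cst]; omega)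
            (by simp only [cst]; omega)
        have r := move_x hq hk (x := x) (y := cst Y) 0 (Y + t) (by omega) (by omega) hg'
        have r' := ih t s' (update x 0 (Y + t)) hg' (by simp) t1 t2 h3 h4 t5
        rw [update_idem] at r'
        exact r.trans r'
  obtain ⟨m, hm1, hm2⟩ := hy1
  obtain ⟨m', hm1', hm2'⟩ := hx1
  set x3 := update (update (update x 1 (x j)) 2 (x j)) 3 (x j) with hx3
  obtain ⟨g4, r4⟩ := lift_x n3 0 m
  have h30 : x3 0 = x 0 := by simp [hx3, update]
  have r5 := walk (|(x j - Y + k * m') - (x 0 - Y + k * m)|.toNat) (x 0 - Y + k * m)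
    (x j - Y + k * m') (update x3 0 (x3 0 + k * m)) g4 (by simp [h30]; ring) hm1 hm2 hm1' hm2'
    (by rw [Int.toNat_of_nonneg (abs_nonneg _)])
  rw [update_idem] at r5
  have g6 : HG k q (update x3 0 (Y + (x j - Y + k * m'))) (cst Y) :=
    n3.update_x 0 _ fun i _ => far_of_le (by simp only [cst]; omega) (by simp only [cst]; omega)
  obtain ⟨g7, r7⟩ := lift_x g6 0 (-m')
  rw [update_self, update_idem] at r7 g7
  have ex : update x3 0 (Y + (x j - Y + k * m') + k * -m') = cst (x j) := by
    have : Y + (x j - Y + k * m') + k * -m' = x j := by ring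
    rw [this]
    funext i; fin_cases i <;> simp [hx3, update, cst]
  rw [ex] at r7 g7
  exact ⟨x j, Y, ⟨m', hm1', hm2'⟩, ((r12.trans r4).trans r5).trans r7⟩

/-- shifting one side by at most one -/
lemma shift_x (hq : 0 < q) (hk : 4 * q < k) {X X' Y : ℤ} (h : Far k q X Y) (h' : Far k q X' Y)
    (h1 : X' - X ≤ 1) (h2 : X - X' ≤ 1) : HR k q (cst X) (cst Y) (cst X') (cst Y) := by
  have g0 := hg_cst (k := k) (q := q) h
  have g1 := g0.update_x 0 X' fun i _ => h'
  have g2 := g1.update_x 1 X' fun i _ => h'
  have g3 := g2.update_x 2 X' fun i _ => h'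
  have g4 := g3.update_x 3 X' fun i _ => h'
  have r1 := move_x hq hk 0 X' (by simpa [cst] using h1) (by simpa [cst] using h2) g1
  have r2 := move_x hq hk 1 X' (by simpa [cst, update] using h1)
    (by simpa [cst, update] using h2) g2
  have r3 := move_x hq hk 2 X' (by simpa [cst, update] using h1)
    (by simpa [cst, update] using h2) g3
  have r4 := move_x hq hk 3 X' (by simpa [cst, update] using h1)
    (by simpa [cst, update] using h2) g4
  have e : update (update (update (update (cst X) 0 X') 1 X') 2 X') 3 X' = cst X' := by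
    funext i; fin_cases i <;> simp [update, cst]
  rw [e] at r4
  exact ((r1.trans r2).trans r3).trans r4

lemma shift_y (hq : 0 < q) (hk : 4 * q < k) {X Y Y' : ℤ} (h : Far k q X Y) (h' : Far k q X Y')
    (h1 : Y' - Y ≤ 1) (h2 : Y - Y' ≤ 1) : HR k q (cst X) (cst Y) (cst X) (cst Y') := by
  have g0 := hg_cst (k := k) (q := q) h
  have g1 := g0.update_y 0 Y' fun i _ => h'
  have g2 := g1.update_y 1 Y' fun i _ => h'
  have g3 := g2.update_y 2 Y' fun i _ => h'
  have g4 := g3.update_y 3 Y' fun i _ => h'
  have r1 := move_y hq hk 0 Y' (by simpa [cst] using h1) (by simpa [cst] using h2) g1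
  have r2 := move_y hq hk 1 Y' (by simpa [cst, update] using h1)
    (by simpa [cst, update] using h2) g2
  have r3 := move_y hq hk 2 Y' (by simpa [cst, update] using h1)
    (by simpa [cst, update] using h2) g3
  have r4 := move_y hq hk 3 Y' (by simpa [cst, update] using h1)
    (by simpa [cst, update] using h2) g4
  have e : update (update (update (update (cst Y) 0 Y') 1 Y') 2 Y') 3 Y' = cst Y' := by
    funext i; fin_cases i <;> simp [update, cst]
  rw [e] at r4
  exact ((r1.trans r2).trans r3).trans r4

/-- to the base colouring of the two sides -/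
lemma stage3 (hq : 0 < q) (hk : 4 * q < k) (X Y : ℤ) (h : Far k q X Y) :
    HR k q (cst X) (cst Y) (cst 0) (cst q) := by
  -- move `Y` down to `X + q`
  have s1 : ∀ (X : ℤ) (N : ℕ) (Y : ℤ), q ≤ Y - X → Y - X ≤ k - q → Y - X - q ≤ N →
      HR k q (cst X) (cst Y) (cst X) (cst (X + q)) := by
    intro X N
    induction N with
    | zero =>
      intro Y h1 h2 h3
      have : Y = X + q := by push_cast at h3; omega
      rw [this]; exact HR.refl _ _
    | succ N ih =>
      intro Y h1 h2 h3
      by_cases hY : Y = X + q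
      · rw [hY]; exact HR.refl _ _
      · have f1 : Far k q X Y := Far.symm (far_of_le h1 h2)
        have f2 : Far k q X (Y - 1) := Far.symm (far_of_le (by omega) (by omega))
        exact (shift_y hq hk f1 f2 (by omega) (by omega)).trans
          (ih (Y - 1) (by omega) (by omega) (by push_cast at h3; omega))
  have s2 : ∀ (N : ℕ) (X : ℤ), 0 ≤ X → X ≤ N →
      HR k q (cst X) (cst (X + q)) (cst 0) (cst q) := by
    intro N
    induction N with
    | zero =>
      intro X h1 h2
      have : X = 0 := by push_cast at h2; omega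
      subst this
      rw [zero_add]; exact HR.refl _ _
    | succ N ih =>
      intro X h1 h2
      by_cases hX : X = 0
      · subst hX; rw [zero_add]; exact HR.refl _ _
      · have f1 : Far k q X (X + q) := Far.symm (far_of_le (by omega) (by omega))
        have f2 : Far k q (X - 1) (X + q) := Far.symm (far_of_le (by omega) (by omega))
        have f3 : Far k q (X - 1) (X - 1 + q) := Far.symm (far_of_le (by omega) (by omega))
        exact ((shift_x hq hk f1 f2 (by omega) (by omega)).trans
          (shift_y hq hk f2 f3 (by omega) (by omega))).trans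
          (ih (X - 1) (by omega) (by push_cast at h2; omega))
  -- lifts
  obtain ⟨m, h1, h2⟩ := h.symm
  have hk0 : 0 < k := by linarith
  -- `Y - X + k m` in `[q, k - q]`; lift `X` to `X mod k`
  set d := -(X / k) with hd
  have e1 : X % k + k * (X / k) = X := Int.emod_add_mul_ediv _ _
  have e2 : 0 ≤ X % k := Int.emod_nonneg _ hk0.ne'
  obtain ⟨g, r⟩ := lift_all (hg_cst (k := k) (q := q) h) (fun _ => d) (fun _ => m + d)
  have ex : (fun i : Fin 4 => cst X i + k * d) = cst (X + k * d) := rfl
  have ey : (fun i : Fin 4 => cst Y i + k * (m + d)) = cst (Y + k * (m + d)) := rfl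
  rw [ex, ey] at r g
  have hX0 : 0 ≤ X + k * d := by rw [hd]; nlinarith
  have b1 : q ≤ Y + k * (m + d) - (X + k * d) := by nlinarith
  have b2 : Y + k * (m + d) - (X + k * d) ≤ k - q := by nlinarith
  exact r.trans ((s1 (X + k * d) (Y + k * (m + d) - (X + k * d) - q).toNat _ b1 b2
    (by omega)).trans (s2 (X + k * d).toNat _ hX0 (by omega)))

/-- every colouring can be moved to the base colouring -/
theorem to_base (hq : 0 < q) (hk : 4 * q < k) (s : St) (hs : GG k q s.1 s.2.1 s.2.2) :
    Rch k q s (cst 0, cst q, 2 * q) := by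
  obtain ⟨x, y, w⟩ := s
  obtain ⟨x', y', r1, g1, j, hj⟩ := stage1' hq hk x y hs.1
  obtain ⟨X, Y, hXY, r2⟩ := stage2 hq hk x' y' g1 j hj
  have r3 := stage3 hq hk X Y hXY
  obtain ⟨w', hw', r⟩ := ((r1.trans r2).trans r3) w hs
  refine r.trans (Relation.ReflTransGen.single ⟨hw', ⟨hw'.1, ?_, ?_⟩, Or.inr (Or.inr ⟨2 * q, rfl⟩)⟩)
  · exact far_of_le (by simp only [cst]; omega) (by simp only [cst]; omega)
  · exact far_of_le (by simp only [cst]; omega) (by simp only [cst]; omega)

end Pool.Agent.Mixing
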