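import Pool.Agent.Lib_helper71.Mixing.Defs

set_option autoImplicit false

/-!
Colourings lifted to integers.  The vertices are `a 0, …, a 3`, `b 0, …, b 3` and `w`; the edges
are `a i - b j` for `i ≠ j`, `w - a 0` and `w - b 1`.
-/

namespace Pool.Agent.Mixing

open Function

/-- circular distance at least `q` on the circle of length `k` -/
def Far (k q a b : ℤ) : Prop := ∃ m : ℤ, q ≤ a - b + k * m ∧ a - b + k * m ≤ k - q

variable {k q : ℤ}

lemma Far.symm {a b : ℤ} (h : Far k q a b) : Far k q b a := by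
  obtain ⟨m, h1, h2⟩ := h
  refine ⟨1 - m, ?_, ?_⟩ <;> nlinarith

lemma far_add_left {a b : ℤ} (m : ℤ) (h : Far k q a b) : Far k q (a + k * m) b := by
  obtain ⟨m', h1, h2⟩ := h
  refine ⟨m' - m, ?_, ?_⟩ <;> nlinarith

lemma far_add_right {a b : ℤ} (m : ℤ) (h : Far k q a b) : Far k q a (b + k * m) :=
  (far_add_left m h.symm).symm

lemma far_of_le {a b : ℤ} (h1 : q ≤ a - b) (h2 : a - b ≤ k - q) : Far k q a b :=
  ⟨0, by linarith, by linarith⟩

lemma exists_of_not_far (hq : 0 < q) (hk : 2 * q < k) {a b : ℤ} (h : ¬ Far k q a b) :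
    ∃ m : ℤ, -q < a - b + k * m ∧ a - b + k * m < q := by
  have hk0 : 0 < k := by linarith
  have h1 : (a - b) % k + k * ((a - b) / k) = a - b := Int.emod_add_mul_ediv _ _
  have h2 : 0 ≤ (a - b) % k := Int.emod_nonneg _ hk0.ne'
  have h3 : (a - b) % k < k := Int.emod_lt_of_pos _ hk0
  rcases lt_or_ge ((a - b) % k) q with h4 | h4
  · refine ⟨-((a - b) / k), ?_, ?_⟩ <;> nlinarith
  · rcases le_or_gt ((a - b) % k) (k - q) with h5 | h5
    · exfalso
      exact h ⟨-((a - b) / k), by nlinarith, by nlinarith⟩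
    · refine ⟨-((a - b) / k) - 1, ?_, ?_⟩ <;> nlinarith

/-- the colouring condition for the part without `w` -/
def HG (k q : ℤ) (x y : Fin 4 → ℤ) : Prop := ∀ i j, i ≠ j → Far k q (x i) (y j)

/-- the colouring condition -/
def GG (k q : ℤ) (x y : Fin 4 → ℤ) (w : ℤ) : Prop :=
  HG k q x y ∧ Far k q w (x 0) ∧ Far k q w (y 1)

/-- states: the colours of the `a i`, of the `b i` and of `w` -/
abbrev St : Type := (Fin 4 → ℤ) × (Fin 4 → ℤ) × ℤ

/-- a single recolouring step -/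
def Stp (k q : ℤ) (s t : St) : Prop :=
  GG k q s.1 s.2.1 s.2.2 ∧ GG k q t.1 t.2.1 t.2.2 ∧
  ((∃ i c, t = (update s.1 i c, s.2.1, s.2.2)) ∨ (∃ i c, t = (s.1, update s.2.1 i c, s.2.2)) ∨
    (∃ c, t = (s.1, s.2.1, c)))

/-- reachability -/
def Rch (k q : ℤ) (s t : St) : Prop := Relation.ReflTransGen (Stp k q) s t

/-- reachability of the part without `w`, whatever the colour of `w` is -/
def HR (k q : ℤ) (x y x' y' : Fin 4 → ℤ) : Prop :=
  ∀ w, GG k q x y w → ∃ w', GG k q x' y' w' ∧ Rch k q (x, y, w) (x', y', w')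

lemma HR.refl (x y : Fin 4 → ℤ) : HR k q x y x y :=
  fun w hw => ⟨w, hw, Relation.ReflTransGen.refl⟩

lemma HR.trans {x y x' y' x'' y'' : Fin 4 → ℤ} (h : HR k q x y x' y') (h' : HR k q x' y' x'' y'') :
    HR k q x y x'' y'' := by
  intro w hw
  obtain ⟨w', hw', h1⟩ := h w hw
  obtain ⟨w'', hw'', h2⟩ := h' w' hw'
  exact ⟨w'', hw'', h1.trans h2⟩

/-- the flexible vertex `w` can be moved out of the way -/
lemma exists_w (hq : 0 < q) (hk : 4 * q < k) {u u' v : ℤ} (h : Far k q u v)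
    (h1 : u' - u ≤ 1) (h2 : u - u' ≤ 1) :
    ∃ z, Far k q z u ∧ Far k q z u' ∧ Far k q z v := by
  obtain ⟨m, hm1, hm2⟩ := h
  -- `u - v + k m` in `[q, k - q]`
  rcases le_or_gt (2 * q + 1) (u - v + k * m) with h3 | h3
  · refine ⟨min u u' - q, ?_, ?_, ?_⟩
    · apply Far.symm; apply far_of_le <;> omega
    · apply Far.symm; apply far_of_le <;> omega
    · refine ⟨m, ?_, ?_⟩
      · have : min u u' = u ∨ min u u' = u - 1 := by omega
        rcases this with h | h <;> rw [h] <;> linarith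
      · have : min u u' = u ∨ min u u' = u - 1 := by omega
        rcases this with h | h <;> rw [h] <;> linarith
  · refine ⟨max u u' + q, ?_, ?_, ?_⟩
    · apply far_of_le <;> omega
    · apply far_of_le <;> omega
    · refine ⟨m, ?_, ?_⟩
      · have : max u u' = u ∨ max u u' = u + 1 := by omega
        rcases this with h | h <;> rw [h] <;> linarith
      · have : max u u' = u ∨ max u u' = u + 1 := by omega
        rcases this with h | h <;> rw [h] <;> linarith

/-- moving `a i` by at most one -/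
lemma move_x (hq : 0 < q) (hk : 4 * q < k) {x y : Fin 4 → ℤ} (i : Fin 4) (c : ℤ)
    (h1 : c - x i ≤ 1) (h2 : x i - c ≤ 1) (h : HG k q (update x i c) y) :
    HR k q x y (update x i c) y := by
  intro w hw
  by_cases hi : i = 0
  · subst hi
    obtain ⟨z, hz1, hz2, hz3⟩ := exists_w hq hk (hw.1 0 1 (by decide)) h1 h2
    have g1 : GG k q x y z := ⟨hw.1, hz1, hz3⟩
    have g2 : GG k q (update x 0 c) y z := ⟨h, by simpa using hz2, hz3⟩
    have s1 : Stp k q (x, y, w) (x, y, z) := ⟨hw, g1, Or.inr (Or.inr ⟨z, rfl⟩)⟩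
    have s2 : Stp k q (x, y, z) (update x 0 c, y, z) := ⟨g1, g2, Or.inl ⟨0, c, rfl⟩⟩
    exact ⟨z, g2, (Relation.ReflTransGen.single s1).trans (Relation.ReflTransGen.single s2)⟩
  · have g2 : GG k q (update x i c) y w :=
      ⟨h, by rw [update_of_ne (Ne.symm hi)]; exact hw.2.1, hw.2.2⟩
    exact ⟨w, g2, Relation.ReflTransGen.single ⟨hw, g2, Or.inl ⟨i, c, rfl⟩⟩⟩

/-- moving `b i` by at most one -/
lemma move_y (hq : 0 < q) (hk : 4 * q < k) {x y : Fin 4 → ℤ} (i : Fin 4) (c : ℤ)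
    (h1 : c - y i ≤ 1) (h2 : y i - c ≤ 1) (h : HG k q x (update y i c)) :
    HR k q x y x (update y i c) := by
  intro w hw
  by_cases hi : i = 1
  · subst hi
    obtain ⟨z, hz1, hz2, hz3⟩ := exists_w hq hk (hw.1 0 1 (by decide)).symm h1 h2
    have g1 : GG k q x y z := ⟨hw.1, hz3, hz1⟩
    have g2 : GG k q x (update y 1 c) z := ⟨h, hz3, by simpa using hz2⟩
    have s1 : Stp k q (x, y, w) (x, y, z) := ⟨hw, g1, Or.inr (Or.inr ⟨z, rfl⟩)⟩
    have s2 : Stp k q (x, y, z) (x, update y 1 c, z) := ⟨g1, g2, Or.inr (Or.inl ⟨1, c, rfl⟩)⟩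
    exact ⟨z, g2, (Relation.ReflTransGen.single s1).trans (Relation.ReflTransGen.single s2)⟩
  · have g2 : GG k q x (update y i c) w :=
      ⟨h, hw.2.1, by rw [update_of_ne (Ne.symm hi)]; exact hw.2.2⟩
    exact ⟨w, g2, Relation.ReflTransGen.single ⟨hw, g2, Or.inr (Or.inl ⟨i, c, rfl⟩)⟩⟩

/-- arbitrary moves of `a i`, `i ≠ 0` -/
lemma jump_x {x y : Fin 4 → ℤ} (i : Fin 4) (hi : i ≠ 0) (c : ℤ) (h : HG k q (update x i c) y) :
    HR k q x y (update x i c) y := by
  intro w hw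
  have g2 : GG k q (update x i c) y w :=
    ⟨h, by rw [update_of_ne (Ne.symm hi)]; exact hw.2.1, hw.2.2⟩
  exact ⟨w, g2, Relation.ReflTransGen.single ⟨hw, g2, Or.inl ⟨i, c, rfl⟩⟩⟩

/-- arbitrary moves of `b i`, `i ≠ 1` -/
lemma jump_y {x y : Fin 4 → ℤ} (i : Fin 4) (hi : i ≠ 1) (c : ℤ) (h : HG k q x (update y i c)) :
    HR k q x y x (update y i c) := by
  intro w hw
  have g2 : GG k q x (update y i c) w :=
    ⟨h, hw.2.1, by rw [update_of_ne (Ne.symm hi)]; exact hw.2.2⟩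
  exact ⟨w, g2, Relation.ReflTransGen.single ⟨hw, g2, Or.inr (Or.inl ⟨i, c, rfl⟩)⟩⟩

lemma HG.update_x {x y : Fin 4 → ℤ} (h : HG k q x y) (i : Fin 4) (c : ℤ)
    (hc : ∀ j, i ≠ j → Far k q c (y j)) : HG k q (update x i c) y := by
  intro i' j hij
  by_cases hi : i' = i
  · subst hi; rw [update_self]; exact hc j hij
  · rw [update_of_ne hi]; exact h i' j hij

lemma HG.update_y {x y : Fin 4 → ℤ} (h : HG k q x y) (j : Fin 4) (c : ℤ)
    (hc : ∀ i, i ≠ j → Far k q (x i) c) : HG k q x (update y j c) := by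
  intro i j' hij
  by_cases hj : j' = j
  · subst hj; rw [update_self]; exact hc i hij
  · rw [update_of_ne hj]; exact h i j' hij

/-- changing the lift of `a i` -/
lemma lift_x {x y : Fin 4 → ℤ} (h : HG k q x y) (i : Fin 4) (m : ℤ) :
    HG k q (update x i (x i + k * m)) y ∧ HR k q x y (update x i (x i + k * m)) y := by
  have h1 : HG k q (update x i (x i + k * m)) y :=
    h.update_x i _ fun j hj => far_add_left m (h i j hj)
  refine ⟨h1, fun w hw => ?_⟩
  have g2 : GG k q (update x i (x i + k * m)) y w := by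
    refine ⟨h1, ?_, hw.2.2⟩
    by_cases hi : (0 : Fin 4) = i
    · subst hi; rw [update_self]; exact far_add_right m hw.2.1
    · rw [update_of_ne hi]; exact hw.2.1
  exact ⟨w, g2, Relation.ReflTransGen.single ⟨hw, g2, Or.inl ⟨i, _, rfl⟩⟩⟩

/-- changing the lift of `b i` -/
lemma lift_y {x y : Fin 4 → ℤ} (h : HG k q x y) (i : Fin 4) (m : ℤ) :
    HG k q x (update y i (y i + k * m)) ∧ HR k q x y x (update y i (y i + k * m)) := by
  have h1 : HG k q x (update y i (y i + k * m)) :=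
    h.update_y i _ fun j hj => far_add_right m (h j i hj)
  refine ⟨h1, fun w hw => ?_⟩
  have g2 : GG k q x (update y i (y i + k * m)) w := by
    refine ⟨h1, hw.2.1, ?_⟩
    by_cases hi : (1 : Fin 4) = i
    · subst hi; rw [update_self]; exact far_add_right m hw.2.2
    · rw [update_of_ne hi]; exact hw.2.2
  exact ⟨w, g2, Relation.ReflTransGen.single ⟨hw, g2, Or.inr (Or.inl ⟨i, _, rfl⟩)⟩⟩

/-- changing all lifts at once -/
lemma lift_all {x y : Fin 4 → ℤ} (h : HG k q x y) (m m' : Fin 4 → ℤ) :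
    HG k q (fun i => x i + k * m i) (fun i => y i + k * m' i) ∧
      HR k q x y (fun i => x i + k * m i) (fun i => y i + k * m' i) := by
  have hx : ∀ x : Fin 4 → ℤ, (fun i => x i + k * m i) =
      update (update (update (update x 0 (x 0 + k * m 0)) 1 (x 1 + k * m 1)) 2 (x 2 + k * m 2)) 3
        (x 3 + k * m 3) := by
    intro x; funext i; fin_cases i <;> simp [update]
  have hy : ∀ y : Fin 4 → ℤ, (fun i => y i + k * m' i) =
      update (update (update (update y 0 (y 0 + k * m' 0)) 1 (y 1 + k * m' 1)) 2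
        (y 2 + k * m' 2)) 3 (y 3 + k * m' 3) := by
    intro x; funext i; fin_cases i <;> simp [update]
  rw [hx x, hy y]
  obtain ⟨g0, r0⟩ := lift_x h 0 (m 0)
  obtain ⟨g1, r1⟩ := lift_x g0 1 (m 1)
  obtain ⟨g2, r2⟩ := lift_x g1 2 (m 2)
  obtain ⟨g3, r3⟩ := lift_x g2 3 (m 3)
  simp only [update_of_ne (show (1 : Fin 4) ≠ 0 by decide),
    update_of_ne (show (2 : Fin 4) ≠ 0 by decide), update_of_ne (show (2 : Fin 4) ≠ 1 by decide),
    update_of_ne (show (3 : Fin 4) ≠ 0 by decide), update_of_ne (show (3 : Fin 4) ≠ 1 by decide),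
    update_of_ne (show (3 : Fin 4) ≠ 2 by decide)] at g1 r1 g2 r2 g3 r3
  obtain ⟨g4, r4⟩ := lift_y g3 0 (m' 0)
  obtain ⟨g5, r5⟩ := lift_y g4 1 (m' 1)
  obtain ⟨g6, r6⟩ := lift_y g5 2 (m' 2)
  obtain ⟨g7, r7⟩ := lift_y g6 3 (m' 3)
  simp only [update_of_ne (show (1 : Fin 4) ≠ 0 by decide),
    update_of_ne (show (2 : Fin 4) ≠ 0 by decide), update_of_ne (show (2 : Fin 4) ≠ 1 by decide),
    update_of_ne (show (3 : Fin 4) ≠ 0 by decide), update_of_ne (show (3 : Fin 4) ≠ 1 by decide),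
    update_of_ne (show (3 : Fin 4) ≠ 2 by decide)] at g5 r5 g6 r6 g7 r7
  exact ⟨g7, ((((((r0.trans r1).trans r2).trans r3).trans r4).trans r5).trans r6).trans r7⟩

end Pool.Agent.Mixing
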